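import Mathlib
import Pool.Agent.Y248.FD.Stm
import Pool.Agent.Y71.FB.GlobA
set_option autoImplicit false

/-! # Project FD: globalisation on boxes (after helper71) -/

namespace Pool.Agent.Y665.FD

open MeasureTheory Set Metric Complex Filter
open scoped ENNReal RealInnerProductSpace Topology FourierTransform Pointwise
open Pool.Agent.H789R2.FR (E sg T)
open Pool.Agent.H438R2.RZ (Bump)
open Pool.Agent.Y248.BA
open Pool.Agent.Y248.FB Pool.Agent.Y248.FC Pool.Agent.Y248.FD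
open Pool.Agent.Y71.FB (sigmaFinite schur Jw_lint)

section
variable {m : ℕ}

theorem hd_sub (x y : E (m + 1)) : hd m (x - y) = hd m x - hd m y := by
  unfold hd; rw [map_sub]; rfl

theorem pr_sub (x y : E (m + 1)) : pr m (x - y) = pr m x - pr m y := by
  unfold pr; rw [map_sub]; rfl

theorem hd_smul (c : ℝ) (x : E (m + 1)) : hd m (c • x) = c • hd m x := by
  unfold hd; rw [map_smul]; rfl

theorem pr_smul (c : ℝ) (x : E (m + 1)) : pr m (c • x) = c • pr m x := by
  unfold pr; rw [map_smul]; rfl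

theorem hd_cont : Continuous (hd m (k := 1)) := by unfold hd; fun_prop

theorem pr_cont : Continuous (pr m (k := 1)) := by unfold pr; fun_prop

theorem nsq (x : E (m + 1)) : ‖x‖ ^ 2 = ‖hd m x‖ ^ 2 + ‖pr m x‖ ^ 2 := by
  rw [EuclideanSpace.norm_sq_eq, EuclideanSpace.norm_sq_eq, EuclideanSpace.norm_sq_eq, Fin.sum_univ_add]
  rfl

/-- the gauge of the boxes -/
noncomputable def bx (m : ℕ) (l : ℝ) (x : E (m + 1)) : ℝ := max ‖hd m x‖ (‖pr m x‖ / l)

theorem bx_cont (l : ℝ) : Continuous (bx m l) := by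
  unfold bx
  exact (hd_cont.norm).max (pr_cont.norm.div_const l)

theorem bx_nonneg (l : ℝ) (x : E (m + 1)) : 0 ≤ bx m l x := (norm_nonneg _).trans (le_max_left _ _)

theorem bx_comm (l : ℝ) (x y : E (m + 1)) : bx m l (x - y) = bx m l (y - x) := by
  unfold bx
  rw [hd_sub, hd_sub, pr_sub, pr_sub, norm_sub_rev, norm_sub_rev (pr m x)]

theorem bx_tri {l : ℝ} (hl : 0 < l) (x y z : E (m + 1)) : bx m l (x - z) ≤ bx m l (x - y) + bx m l (y - z) := by
  unfold bx
  refine max_le ?_ ?_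
  · have h1 : ‖hd m (x - z)‖ ≤ ‖hd m (x - y)‖ + ‖hd m (y - z)‖ := by
      rw [hd_sub, hd_sub, hd_sub]; exact norm_sub_le_norm_sub_add_norm_sub _ _ _
    exact h1.trans (add_le_add (le_max_left _ _) (le_max_left _ _))
  · have h1 : ‖pr m (x - z)‖ ≤ ‖pr m (x - y)‖ + ‖pr m (y - z)‖ := by
      rw [pr_sub, pr_sub, pr_sub]; exact norm_sub_le_norm_sub_add_norm_sub _ _ _
    have h2 : ‖pr m (x - z)‖ / l ≤ ‖pr m (x - y)‖ / l + ‖pr m (y - z)‖ / l := by
      rw [← add_div]; exact div_le_div_of_nonneg_right h1 hl.le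
    exact h2.trans (add_le_add (le_max_right _ _) (le_max_right _ _))

theorem box_iff {l : ℝ} (hl : 0 < l) (x u : E (m + 1)) (ρ : ℝ) : x ∈ Box m l u ρ ↔ bx m l (x - u) ≤ ρ := by
  unfold Box bx
  rw [mem_setOf_eq, max_le_iff, hd_sub, pr_sub, div_le_iff₀ hl, mul_comm l]

theorem box_eq {l : ℝ} (hl : 0 < l) (u : E (m + 1)) (ρ : ℝ) : Box m l u ρ = {x | bx m l (x - u) ≤ ρ} := by
  ext x
  exact box_iff hl x u ρ

theorem box_closed {l : ℝ} (hl : 0 < l) (u : E (m + 1)) (ρ : ℝ) : IsClosed (Box m l u ρ) := by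
  rw [box_eq hl]
  exact isClosed_le ((bx_cont l).comp (continuous_id.sub continuous_const)) continuous_const

theorem norm_le_bx {l : ℝ} (hl : 0 < l) (hl1 : l ≤ 1) (x : E (m + 1)) : ‖x‖ ≤ 2 * bx m l x := by
  have h1 : ‖hd m x‖ ≤ bx m l x := le_max_left _ _
  have h2 : ‖pr m x‖ / l ≤ bx m l x := le_max_right _ _
  have h3 : ‖pr m x‖ ≤ bx m l x := by
    refine le_trans ?_ h2
    rw [le_div_iff₀ hl]
    nlinarith [norm_nonneg (pr m x)]
  have h4 := nsq x
  have h5 := norm_nonneg (hd m x)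
  have h6 := norm_nonneg (pr m x)
  refine abs_le_of_sq_le_sq' (b := 2 * bx m l x) ?_ (by linarith) |>.2
  nlinarith

/-- the volume of the boxes -/
noncomputable def vl (m : ℕ) (l ρ : ℝ) : ℝ≥0∞ := (volume : Measure (E (m + 1))) {w | bx m l w ≤ ρ}

theorem bx_smul {l : ℝ} {c : ℝ} (hc : 0 ≤ c) (x : E (m + 1)) : bx m l (c • x) = c * bx m l x := by
  unfold bx
  rw [hd_smul, pr_smul, norm_smul, norm_smul, Real.norm_of_nonneg hc, mul_max_of_nonneg _ _ hc, mul_div_assoc]

theorem vl_two (l ρ : ℝ) : vl m l (2 * ρ) = ENNReal.ofReal (2 ^ (m + 1)) * vl m l ρ := by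
  unfold vl
  have h1 : {w : E (m + 1) | bx m l w ≤ 2 * ρ} = (2 : ℝ) • {w : E (m + 1) | bx m l w ≤ ρ} := by
    ext w
    rw [mem_setOf_eq, mem_smul_set]
    constructor
    · intro h
      refine ⟨(1 / 2 : ℝ) • w, ?_, by rw [smul_smul]; norm_num⟩
      rw [mem_setOf_eq, bx_smul (by norm_num)]
      linarith
    · rintro ⟨y, hy, rfl⟩
      rw [bx_smul (by norm_num)]
      rw [mem_setOf_eq] at hy
      linarith
  rw [h1, Measure.addHaar_smul_of_nonneg _ (by norm_num), finrank_euclideanSpace_fin]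

theorem vl_ne_zero {l ρ : ℝ} (hl : 0 < l) (hρ : 0 < ρ) : vl m l ρ ≠ 0 := by
  unfold vl
  have h1 : IsOpen {w : E (m + 1) | bx m l w < ρ} := isOpen_lt (bx_cont l) continuous_const
  have h2 : (0 : E (m + 1)) ∈ {w : E (m + 1) | bx m l w < ρ} := by
    rw [mem_setOf_eq]
    have : bx m l (0 : E (m + 1)) = 0 := by
      have := bx_smul (m := m) (l := l) (c := 0) le_rfl (0 : E (m + 1))
      rwa [zero_smul, zero_mul] at this
    rw [this]; exact hρ
  have h3 : 0 < (volume : Measure (E (m + 1))) {w : E (m + 1) | bx m l w < ρ} := h1.measure_pos _ ⟨0, h2⟩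
  exact (h3.trans_le (measure_mono fun w (hw : bx m l w < ρ) => (le_of_lt hw : bx m l w ≤ ρ))).ne'

theorem vl_ne_top {l ρ : ℝ} (hl : 0 < l) (hl1 : l ≤ 1) : vl m l ρ ≠ ∞ := by
  unfold vl
  refine ne_top_of_le_ne_top (measure_closedBall_lt_top (x := (0 : E (m + 1))) (r := 2 * ρ)).ne (measure_mono ?_)
  intro w hw
  rw [mem_closedBall_zero_iff]
  rw [mem_setOf_eq] at hw
  linarith [norm_le_bx hl hl1 w]

/-! ## averages -/

theorem ind_box {l : ℝ} (hl : 0 < l) (μ : Measure (E (m + 1))) (r : ℝ) (h : E (m + 1) → ℝ≥0∞) (u : E (m + 1)) :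
    ∫⁻ x in Box m l u r, h x ∂μ =
      ∫⁻ x, {z : E (m + 1) × E (m + 1) | bx m l (z.2 - z.1) ≤ r}.indicator (fun z => h z.2) (u, x) ∂μ := by
  rw [← lintegral_indicator (box_closed hl u r).measurableSet]
  refine lintegral_congr fun x => ?_
  by_cases hx : bx m l (x - u) ≤ r
  · rw [indicator_of_mem ((box_iff hl x u r).2 hx), indicator_of_mem
      (show (u, x) ∈ {z : E (m + 1) × E (m + 1) | bx m l (z.2 - z.1) ≤ r} from hx)]
  · rw [indicator_of_notMem (fun h' => hx ((box_iff hl x u r).1 h')), indicator_of_notMem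
      (show (u, x) ∉ {z : E (m + 1) × E (m + 1) | bx m l (z.2 - z.1) ≤ r} from hx)]

theorem box_jm (l r : ℝ) (h : E (m + 1) → ℝ≥0∞) (hh : Measurable h) :
    Measurable ({z : E (m + 1) × E (m + 1) | bx m l (z.2 - z.1) ≤ r}.indicator (fun z => h z.2)) :=
  (hh.comp measurable_snd).indicator (measurableSet_le
    ((bx_cont l).measurable.comp (measurable_snd.sub measurable_fst)) measurable_const)

theorem meas_box {l : ℝ} (hl : 0 < l) (μ : Measure (E (m + 1))) [SFinite μ] (r : ℝ) (h : E (m + 1) → ℝ≥0∞)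
    (hh : Measurable h) : Measurable fun u : E (m + 1) => ∫⁻ x in Box m l u r, h x ∂μ := by
  simp only [ind_box hl]
  exact Measurable.lintegral_prod_right' (box_jm l r h hh)

/-- averaging over boxes -/
theorem avg_box {l : ℝ} (hl : 0 < l) (μ : Measure (E (m + 1))) [SFinite μ] (r : ℝ) (h : E (m + 1) → ℝ≥0∞)
    (hh : Measurable h) :
    ∫⁻ u : E (m + 1), (∫⁻ x in Box m l u r, h x ∂μ) = vl m l r * ∫⁻ x, h x ∂μ := by
  simp only [ind_box hl]
  have hsw := lintegral_lintegral_swap (μ := (volume : Measure (E (m + 1))))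
    (ν := μ) (f := fun u x => {z : E (m + 1) × E (m + 1) | bx m l (z.2 - z.1) ≤ r}.indicator
      (fun z => h z.2) (u, x)) (box_jm l r h hh).aemeasurable
  rw [hsw, ← lintegral_const_mul _ hh]
  refine lintegral_congr fun x => ?_
  have e2 : ∀ u : E (m + 1), {z : E (m + 1) × E (m + 1) | bx m l (z.2 - z.1) ≤ r}.indicator (fun z => h z.2) (u, x) =
      (Box m l x r).indicator (fun _ => h x) u := by
    intro u
    by_cases hx : bx m l (x - u) ≤ r
    · rw [indicator_of_mem ((box_iff hl u x r).2 (by rw [bx_comm]; exact hx)),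
        indicator_of_mem (show (u, x) ∈ {z : E (m + 1) × E (m + 1) | bx m l (z.2 - z.1) ≤ r} from hx)]
    · rw [indicator_of_notMem (show u ∉ Box m l x r from
          fun h' => hx (by rw [bx_comm]; exact (box_iff hl u x r).1 h')), indicator_of_notMem
        (show (u, x) ∉ {z : E (m + 1) × E (m + 1) | bx m l (z.2 - z.1) ≤ r} from hx)]
  simp only [e2]
  rw [lintegral_indicator (box_closed hl x r).measurableSet, setLIntegral_const, mul_comm]
  congr 1
  unfold vl
  have h1 : Box m l x r = (fun u => u - x) ⁻¹' {w : E (m + 1) | bx m l w ≤ r} := by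
    rw [box_eq hl]; rfl
  rw [h1]
  exact (measurePreserving_sub_right (volume : Measure (E (m + 1))) x).measure_preimage
    (measurableSet_le (bx_cont l).measurable measurable_const).nullMeasurableSet

/-! ## kernels -/

/-- far part of the kernel -/
noncomputable def kq (l : ℝ) (q : E (m + 1) → ℂ) (ρ : ℝ) : E (m + 1) → ℝ≥0∞ :=
  {w : E (m + 1) | ρ < bx m l w}.indicator fun w => ‖𝓕 q w‖ₑ

theorem Tq_jm {q : E (m + 1) → ℂ} (hq : Integrable q) {f : E (m + 1) → ℂ} (hf : Measurable f) :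
    Measurable fun x => Tq q f x := by
  have hm : Measurable fun z : E (m + 1) × E (m + 1) => 𝓕 q (z.1 - z.2) * f z.2 :=
    ((four_cont hq).measurable.comp (measurable_fst.sub measurable_snd)).mul (hf.comp measurable_snd)
  exact (hm.stronglyMeasurable.integral_prod_right' (ν := (volume : Measure (E (m + 1))))).measurable

/-- splitting into near and far parts -/
theorem splitq {l : ℝ} (hl : 0 < l) (q f : E (m + 1) → ℂ) (u x : E (m + 1)) (ρ : ℝ)
    (hx : x ∈ Box m l u ρ) :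
    ‖Tq q f x‖ₑ ≤ ‖Tq q ((Box m l u (2 * ρ)).indicator f) x‖ₑ +
      ∫⁻ y, kq l q ρ (x - y) * ‖f y‖ₑ := by
  by_cases hi : Integrable fun y : E (m + 1) => 𝓕 q (x - y) * f y
  · set B := Box m l u (2 * ρ) with hB
    have hBm : MeasurableSet B := (box_closed hl _ _).measurableSet
    have e1 : Tq q f x = Tq q (B.indicator f) x +
        ∫ y in Bᶜ, 𝓕 q (x - y) * f y := by
      unfold Tq
      have e2 : ∫ y, 𝓕 q (x - y) * B.indicator f y = ∫ y in B, 𝓕 q (x - y) * f y := by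
        rw [← integral_indicator hBm]
        congr 1; funext y
        by_cases hy : y ∈ B
        · rw [indicator_of_mem hy, indicator_of_mem hy]
        · rw [indicator_of_notMem hy, indicator_of_notMem hy, mul_zero]
      rw [e2, integral_add_compl hBm hi]
    rw [e1]
    refine (enorm_add_le _ _).trans (add_le_add le_rfl ?_)
    refine (enorm_integral_le_lintegral_enorm _).trans ?_
    rw [← lintegral_indicator hBm.compl]
    refine lintegral_mono fun y => ?_
    by_cases hy : y ∈ Bᶜ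
    · rw [indicator_of_mem hy, enorm_mul]
      have h1 : ρ < bx m l (x - y) := by
        have h2 : ¬ (bx m l (y - u) ≤ 2 * ρ) := fun h => hy ((box_iff hl _ _ _).2 h)
        push Not at h2
        have h3 : bx m l (x - u) ≤ ρ := (box_iff hl _ _ _).1 hx
        have h4 := bx_tri hl y x u
        rw [bx_comm l y x] at h4
        linarith
      unfold kq
      rw [indicator_of_mem (show x - y ∈ {w : E (m + 1) | ρ < bx m l w} from h1)]
    · rw [indicator_of_notMem hy]; exact zero_le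
  · have : Tq q f x = 0 := integral_undef hi
    rw [this, enorm_zero]; exact zero_le

/-- tails of the kernels -/
theorem tail {ε : ℝ} (hε : 0 < ε) (M : ℝ) : ∃ N : ℕ, ∀ C₀ : ℝ, 0 < C₀ → ∀ A : ℝ, 1 ≤ A → ∀ l : ℝ, 0 < l → l ≤ 1 →
    ∀ q : E (m + 1) → ℂ, (∀ x, (‖hd m x‖ + ‖pr m x‖ / l) ^ N * ‖𝓕 q x‖ ≤ C₀ * A ^ N) →
    ∀ w : E (m + 1), A ^ (1 + ε) ≤ bx m l w → ‖𝓕 q w‖ ≤ C₀ * 3 ^ (m + 2) * A ^ (-M) * Jw w := by
  obtain ⟨N, hN⟩ := exists_nat_ge (max ((M + ((m : ℝ) + 2) * (1 + ε)) / ε) (-M))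
  have hN1 : (M + ((m : ℝ) + 2) * (1 + ε)) / ε ≤ N := (le_max_left _ _).trans hN
  have hN2 : -M ≤ N := (le_max_right _ _).trans hN
  refine ⟨N, fun C₀ hC A hA l hl hl1 q hb w hw => ?_⟩
  have hA0 : 0 < A := by linarith
  set b : ℝ := bx m l w with hbd
  have h1w : 1 ≤ b := le_trans (Real.one_le_rpow hA (by linarith)) hw
  have hw0 : 0 < b := by linarith
  have hAw : A ≤ b ^ (1 / (1 + ε)) := by
    have := Real.rpow_le_rpow (by positivity) hw (show 0 ≤ 1 / (1 + ε) by positivity)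
    rwa [← Real.rpow_mul hA0.le, mul_one_div, div_self (by positivity), Real.rpow_one] at this
  have h2 : A ^ ((N : ℝ) + M) ≤ b ^ ((N : ℝ) - ((m : ℝ) + 2)) := by
    calc A ^ ((N : ℝ) + M) ≤ (b ^ (1 / (1 + ε))) ^ ((N : ℝ) + M) :=
          Real.rpow_le_rpow hA0.le hAw (by linarith)
      _ = b ^ (((N : ℝ) + M) / (1 + ε)) := by
        rw [← Real.rpow_mul hw0.le]; congr 1; ring
      _ ≤ _ := by
        refine Real.rpow_le_rpow_of_exponent_le h1w ?_
        rw [div_le_iff₀ (by positivity)]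
        rw [div_le_iff₀ hε] at hN1
        nlinarith
  have h3 : b ^ N * ‖𝓕 q w‖ ≤ C₀ * A ^ N := by
    refine le_trans (mul_le_mul_of_nonneg_right ?_ (norm_nonneg _)) (hb w)
    refine pow_le_pow_left₀ hw0.le ?_ _
    refine max_le (le_add_of_nonneg_right (by positivity)) (le_add_of_nonneg_left (norm_nonneg _))
  have h4 : ‖𝓕 q w‖ ≤ C₀ * A ^ (-M) * b ^ (-((m : ℝ) + 2)) := by
    have h5 : ‖𝓕 q w‖ ≤ C₀ * A ^ N / b ^ N := by
      rw [le_div_iff₀ (by positivity), mul_comm]; exact h3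
    refine h5.trans ?_
    rw [div_le_iff₀ (by positivity)]
    have h6 : C₀ * A ^ (-M) * b ^ (-((m : ℝ) + 2)) * b ^ N =
        C₀ * (A ^ (-M) * b ^ ((N : ℝ) - ((m : ℝ) + 2))) := by
      rw [Real.rpow_sub hw0, Real.rpow_neg hw0.le, Real.rpow_natCast]
      ring
    rw [h6]
    refine mul_le_mul_of_nonneg_left ?_ hC.le
    calc A ^ N = A ^ (-M) * A ^ ((N : ℝ) + M) := by
          rw [← Real.rpow_add hA0, ← Real.rpow_natCast]; congr 1; ring
      _ ≤ _ := by gcongr
  refine h4.trans ?_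
  have h7 : b ^ (-((m : ℝ) + 2)) ≤ 3 ^ (m + 2) * Jw w := by
    unfold Jw
    have h8 : 1 + ‖w‖ ≤ 3 * b := by linarith [norm_le_bx hl hl1 w]
    have e1 : (((m + 1 : ℕ) : ℝ) + 1) = ((m + 2 : ℕ) : ℝ) := by push_cast; ring
    have e2 : ((m : ℝ) + 2) = ((m + 2 : ℕ) : ℝ) := by push_cast; ring
    rw [e1, e2, Real.rpow_neg hw0.le, Real.rpow_neg (by positivity), Real.rpow_natCast, Real.rpow_natCast,
      ← div_eq_mul_inv, le_div_iff₀ (by positivity), inv_mul_le_iff₀ (by positivity), ← mul_pow, mul_comm b 3]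
    exact pow_le_pow_left₀ (by positivity) h8 _
  calc C₀ * A ^ (-M) * b ^ (-((m : ℝ) + 2)) ≤ C₀ * A ^ (-M) * (3 ^ (m + 2) * Jw w) :=
        mul_le_mul_of_nonneg_left h7 (by positivity)
    _ = _ := by ring

end

theorem t_gb (m : ℕ) : S_GB m := by
  intro p ε M hp hε
  have hp0 : 0 < p := by linarith
  obtain ⟨N, hN⟩ := tail (m := m) hε (M / p)
  refine ⟨N, fun C₀ hC₀ => ?_⟩
  obtain ⟨CJ, hCJ, hJ⟩ := Jw_lint (m + 1)
  refine ⟨(C₀ * 3 ^ (m + 2)) ^ p * (CJ ^ (p - 1) * 2 ^ (m + 1 + 1)), by positivity,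
    fun μ hμ A hA l hl hl1 q hq hdec D hD hloc f hf hfp => ?_⟩
  have hb := hN C₀ hC₀ A hA l hl hl1 q hdec
  have hsf := sigmaFinite hμ
  have hA0 : 0 < A := by linarith
  set C0 : ℝ := C₀ * 3 ^ (m + 2) with hC0d
  have hC0 : 0 < C0 := by positivity
  set ρ : ℝ := A ^ (1 + ε) with hρd
  have hρ : 0 < ρ := by positivity
  set Φ : E (m + 1) → ℝ≥0∞ := fun x => ∫⁻ y, ENNReal.ofReal (Jw (x - y)) * ‖f y‖ₑ with hΦ
  have hΦm : Measurable Φ := by
    refine Measurable.lintegral_prod_right' (f := fun z : E (m + 1) × E (m + 1) =>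
      ENNReal.ofReal (Jw (z.1 - z.2)) * ‖f z.2‖ₑ) ?_
    exact ((Jw_cont.measurable.comp (measurable_fst.sub measurable_snd)).ennreal_ofReal).mul
      (hf.comp measurable_snd).enorm
  set c : ℝ≥0∞ := ENNReal.ofReal (C0 * A ^ (-(M / p))) with hc
  have hct : c ^ p ≠ ∞ := ENNReal.rpow_ne_top_of_nonneg hp0.le ENNReal.ofReal_ne_top
  have hTm : Measurable fun x => Tq q f x := Tq_jm hq hf
  -- on each box
  have hball : ∀ u : E (m + 1), ∫⁻ x in Box m l u ρ, ‖Tq q f x‖ₑ ^ p ∂μ ≤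
      2 ^ (p - 1) * (ENNReal.ofReal D * (∫⁻ x in Box m l u (2 * ρ), ‖f x‖ₑ ^ p) +
        c ^ p * ∫⁻ x in Box m l u ρ, Φ x ^ p ∂μ) := by
    intro u
    have hBm : MeasurableSet (Box m l u (2 * ρ)) := (box_closed hl _ _).measurableSet
    have h1 := hloc u ((Box m l u (2 * ρ)).indicator f) (hf.indicator hBm)
      (fun x hx => indicator_of_notMem hx _) (by
        refine ne_top_of_le_ne_top hfp (lintegral_mono fun x => ?_)
        by_cases hx : x ∈ Box m l u (2 * ρ)
        · rw [indicator_of_mem hx]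
        · rw [indicator_of_notMem hx, enorm_zero, ENNReal.zero_rpow_of_pos hp0]; exact zero_le)
    have e1 : ∫⁻ x, ‖(Box m l u (2 * ρ)).indicator f x‖ₑ ^ p =
        ∫⁻ x in Box m l u (2 * ρ), ‖f x‖ₑ ^ p := by
      rw [← lintegral_indicator hBm]
      refine lintegral_congr fun x => ?_
      by_cases hx : x ∈ Box m l u (2 * ρ)
      · rw [indicator_of_mem hx, indicator_of_mem hx]
      · rw [indicator_of_notMem hx, indicator_of_notMem hx, enorm_zero,
          ENNReal.zero_rpow_of_pos hp0]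
    rw [e1] at h1
    calc ∫⁻ x in Box m l u ρ, ‖Tq q f x‖ₑ ^ p ∂μ
        ≤ 2 ^ (p - 1) * ((∫⁻ x in Box m l u ρ,
            ‖Tq q ((Box m l u (2 * ρ)).indicator f) x‖ₑ ^ p ∂μ) +
            ∫⁻ x in Box m l u ρ, c ^ p * Φ x ^ p ∂μ) := by
          rw [← lintegral_add_right _ ((hΦm.pow_const _).const_mul _), ← lintegral_const_mul' _ _
            (ENNReal.rpow_ne_top_of_nonneg (by linarith) (by norm_num))]
          refine setLIntegral_mono' (box_closed hl _ _).measurableSet fun x hx => ?_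
          have h2 : ∫⁻ y, kq l q ρ (x - y) * ‖f y‖ₑ ≤ c * Φ x := by
            rw [hΦ, ← lintegral_const_mul' _ _ ENNReal.ofReal_ne_top]
            refine lintegral_mono fun y => ?_
            rw [← mul_assoc]
            refine mul_le_mul' ?_ le_rfl
            unfold kq
            by_cases hw : x - y ∈ {w : E (m + 1) | ρ < bx m l w}
            · rw [indicator_of_mem hw, ← ofReal_norm, ← ENNReal.ofReal_mul (by positivity)]
              exact ENNReal.ofReal_le_ofReal (hb (x - y) (le_of_lt hw))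
            · rw [indicator_of_notMem hw]; exact zero_le
          have h3 := (splitq hl q f u x ρ hx).trans (add_le_add le_rfl h2)
          refine (ENNReal.rpow_le_rpow h3 hp0.le).trans ?_
          refine (ENNReal.rpow_add_le_mul_rpow_add_rpow _ _ hp).trans ?_
          rw [ENNReal.mul_rpow_of_nonneg _ _ hp0.le]
      _ = 2 ^ (p - 1) * ((∫⁻ x in Box m l u ρ,
            ‖Tq q ((Box m l u (2 * ρ)).indicator f) x‖ₑ ^ p ∂μ) +
            c ^ p * ∫⁻ x in Box m l u ρ, Φ x ^ p ∂μ) := by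
          rw [lintegral_const_mul' _ _ hct]
      _ ≤ _ := by gcongr
  -- integrate over the centres
  have hint := lintegral_mono (μ := (volume : Measure (E (m + 1)))) hball
  have hfm : Measurable fun x => ‖f x‖ₑ ^ p := hf.enorm.pow_const _
  rw [lintegral_const_mul' _ _ (ENNReal.rpow_ne_top_of_nonneg (by linarith) (by norm_num)),
    lintegral_add_left ((meas_box hl volume _ _ hfm).const_mul _),
    lintegral_const_mul _ (meas_box hl volume _ _ hfm),
    lintegral_const_mul' _ _ hct,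
    avg_box hl μ ρ _ (hTm.enorm.pow_const _), avg_box hl μ ρ _ (hΦm.pow_const p),
    avg_box hl volume (2 * ρ) _ hfm, vl_two] at hint
  have h3 : vl m l ρ * ∫⁻ x, ‖Tq q f x‖ₑ ^ p ∂μ ≤
      vl m l ρ * (2 ^ (p - 1) * (ENNReal.ofReal D * (ENNReal.ofReal (2 ^ (m + 1)) *
        ∫⁻ x, ‖f x‖ₑ ^ p) + c ^ p * ∫⁻ x, Φ x ^ p ∂μ)) := by
    refine hint.trans (le_of_eq ?_)
    ring
  have h4 := (ENNReal.mul_le_mul_iff_right (vl_ne_zero hl hρ) (vl_ne_top hl hl1)).1 h3
  refine h4.trans ?_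
  have h5 : ∫⁻ x, Φ x ^ p ∂μ ≤ ENNReal.ofReal (CJ ^ (p - 1) * 2 ^ (m + 1 + 1)) *
      ∫⁻ x, ‖f x‖ₑ ^ p := by
    refine (schur (by push_cast; exact le_rfl) hμ _ hf.enorm p hp).trans (le_of_eq ?_)
    rw [hJ, ENNReal.ofReal_rpow_of_pos hCJ, ENNReal.ofReal_mul (by positivity)]
  have h6 : c ^ p = ENNReal.ofReal (C0 ^ p * A ^ (-M)) := by
    rw [hc, ENNReal.ofReal_rpow_of_nonneg (by positivity) hp0.le]
    congr 1
    rw [Real.mul_rpow hC0.le (by positivity), ← Real.rpow_mul hA0.le]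
    congr 2
    field_simp
  calc 2 ^ (p - 1) * (ENNReal.ofReal D * (ENNReal.ofReal (2 ^ (m + 1)) * ∫⁻ x, ‖f x‖ₑ ^ p) +
        c ^ p * ∫⁻ x, Φ x ^ p ∂μ)
      ≤ 2 ^ (p - 1) * (ENNReal.ofReal D * (ENNReal.ofReal (2 ^ (m + 1)) * ∫⁻ x, ‖f x‖ₑ ^ p) +
        c ^ p * (ENNReal.ofReal (CJ ^ (p - 1) * 2 ^ (m + 1 + 1)) * ∫⁻ x, ‖f x‖ₑ ^ p)) := by
        gcongr
    _ = ENNReal.ofReal (2 ^ (p - 1)) * ((ENNReal.ofReal (2 ^ (m + 1)) * ENNReal.ofReal D +
          ENNReal.ofReal (C0 ^ p * A ^ (-M)) * ENNReal.ofReal (CJ ^ (p - 1) * 2 ^ (m + 1 + 1))) *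
          ∫⁻ x, ‖f x‖ₑ ^ p) := by
        rw [← ENNReal.ofReal_rpow_of_pos two_pos, ENNReal.ofReal_ofNat, h6]
        ring
    _ = _ := by
        rw [← ENNReal.ofReal_mul (by positivity), ← ENNReal.ofReal_mul (by positivity),
          ← ENNReal.ofReal_add (by positivity) (by positivity), ← mul_assoc,
          ← ENNReal.ofReal_mul (by positivity)]
        congr 2
        ring

end Pool.Agent.Y665.FD
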